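import Mathlib

/-!
# Classes of ratio two with a shift: the average of the class bottoms
-/

set_option autoImplicit false

namespace Pool.Agent.Helper35.KM

open Finset

/-- the constant of `J` shifts -/
noncomputable def kap (J : ℕ) : ℝ := 1 / (2 * J * (2 ^ (1 / J : ℝ) - 1))

/-- index of the class of weight `w` for the shift `σ / J` -/
noncomputable def cls (J σ : ℕ) (w : ℝ) : ℤ := ⌊Real.logb 2 w - σ / J⌋

/-- bottom of the class -/
noncomputable def bot (J σ : ℕ) (w : ℝ) : ℝ := (2 : ℝ) ^ ((cls J σ w : ℝ) + σ / J)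

theorem bot_pos (J σ : ℕ) (w : ℝ) : 0 < bot J σ w := by
  unfold bot
  positivity

theorem bot_le (J σ : ℕ) {w : ℝ} (hw : 0 < w) : bot J σ w ≤ w := by
  unfold bot cls
  have h1 := Int.floor_le (Real.logb 2 w - σ / J)
  calc (2 : ℝ) ^ (((⌊Real.logb 2 w - σ / J⌋ : ℤ) : ℝ) + σ / J)
      ≤ (2 : ℝ) ^ (Real.logb 2 w) := by
        refine Real.rpow_le_rpow_of_exponent_le (by norm_num) ?_
        linarith
    _ = w := Real.rpow_logb (by norm_num) (by norm_num) hw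

theorem lt_two_bot (J σ : ℕ) {w : ℝ} (hw : 0 < w) : w < 2 * bot J σ w := by
  unfold bot cls
  have h1 := Int.lt_floor_add_one (Real.logb 2 w - σ / J)
  calc w = (2 : ℝ) ^ (Real.logb 2 w) := (Real.rpow_logb (by norm_num) (by norm_num) hw).symm
    _ < (2 : ℝ) ^ (1 + (((⌊Real.logb 2 w - σ / J⌋ : ℤ) : ℝ) + σ / J)) := by
        refine Real.rpow_lt_rpow_of_exponent_lt (by norm_num) ?_
        linarith
    _ = 2 * (2 : ℝ) ^ (((⌊Real.logb 2 w - σ / J⌋ : ℤ) : ℝ) + σ / J) := by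
        rw [Real.rpow_add (by norm_num), Real.rpow_one]

/-- geometric sum -/
theorem geo (J : ℕ) (hJ : 0 < J) :
    ∑ j ∈ range J, (2 : ℝ) ^ (-((j : ℝ) + 1) / J) = J * kap J := by
  set r : ℝ := (2 : ℝ) ^ (-(1 / J : ℝ)) with hr
  have hJ' : (J : ℝ) ≠ 0 := Nat.cast_ne_zero.2 hJ.ne'
  have hJ0 : (0 : ℝ) < J := Nat.cast_pos.2 hJ
  have hterm : ∀ j : ℕ, (2 : ℝ) ^ (-((j : ℝ) + 1) / J) = r * r ^ j := by
    intro j
    rw [hr, ← Real.rpow_natCast, ← Real.rpow_mul (by norm_num), ← Real.rpow_add (by norm_num)]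
    congr 1
    field_simp
    ring
  rw [sum_congr rfl fun j _ => hterm j, ← mul_sum]
  have hr1 : r < 1 := by
    rw [hr]
    exact Real.rpow_lt_one_of_one_lt_of_neg (by norm_num) (by simp [hJ])
  have hr0 : 0 < r := by rw [hr]; positivity
  have hrJ : r ^ J = 1 / 2 := by
    rw [hr, ← Real.rpow_natCast, ← Real.rpow_mul (by norm_num)]
    have : -(1 / (J : ℝ)) * J = -1 := by field_simp
    rw [this, Real.rpow_neg_one]
    norm_num
  rw [geom_sum_eq hr1.ne, hrJ]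
  have hinv : (2 : ℝ) ^ (1 / J : ℝ) = r⁻¹ := by
    rw [hr, ← Real.rpow_neg (by norm_num), neg_neg]
  unfold kap
  rw [hinv]
  have h1 : r - 1 ≠ 0 := sub_ne_zero.2 hr1.ne
  have h2 : 1 - r ≠ 0 := sub_ne_zero.2 hr1.ne'
  have h3 : r⁻¹ - 1 = (1 - r) / r := by
    field_simp
  rw [h3]
  have h4 : r - 1 = -(1 - r) := by ring
  rw [h4]
  field_simp
  norm_num

/-- the average over the shifts -/
theorem avg (J : ℕ) (hJ : 0 < J) {w : ℝ} (hw : 0 < w) :
    J * kap J * w ≤ ∑ σ ∈ range J, bot J σ w := by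
  have hJ0 : (0 : ℝ) < J := Nat.cast_pos.2 hJ
  set x : ℝ := Real.logb 2 w with hx
  have hwx : w = (2 : ℝ) ^ x := (Real.rpow_logb (by norm_num) (by norm_num) hw).symm
  set m : ℤ := ⌊(J : ℝ) * x⌋ with hm
  -- the class bottom is at least `2 ^ (x - (((m - σ) mod J) + 1) / J)`
  have key : ∀ σ : ℕ, (2 : ℝ) ^ (-((((m - σ) % (J : ℤ)).toNat : ℝ) + 1) / J) * w ≤ bot J σ w := by
    intro σ
    have hJz : (0 : ℤ) < J := by exact_mod_cast hJ
    have hmod0 : 0 ≤ (m - σ) % (J : ℤ) := Int.emod_nonneg _ hJz.ne'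
    have hcast : ((((m - σ) % (J : ℤ)).toNat : ℕ) : ℝ) = (((m - σ) % (J : ℤ) : ℤ) : ℝ) := by
      have := Int.toNat_of_nonneg hmod0
      exact_mod_cast this
    rw [hcast, hwx, ← Real.rpow_add (by norm_num)]
    unfold bot cls
    refine Real.rpow_le_rpow_of_exponent_le (by norm_num) ?_
    rw [← hwx, ← hx]
    -- `⌊x - σ / J⌋ ≥ (m - σ) / J`
    have hdiv : ((m - σ) / (J : ℤ) : ℤ) ≤ ⌊x - σ / J⌋ := by
      rw [Int.le_floor]
      have h1 : (((m - σ) / (J : ℤ) : ℤ) : ℝ) * J ≤ (m : ℝ) - σ := by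
        have := Int.ediv_mul_le (m - σ) hJz.ne'
        exact_mod_cast this
      have h2 : (m : ℝ) ≤ J * x := Int.floor_le _
      rw [show x - σ / J = (J * x - σ) / J by field_simp, le_div_iff₀ hJ0]
      linarith
    have hdivR : (((m - σ) / (J : ℤ) : ℤ) : ℝ) ≤ (⌊x - σ / J⌋ : ℝ) := by exact_mod_cast hdiv
    have hsplit : (m : ℝ) - σ = (((m - σ) % (J : ℤ) : ℤ) : ℝ) +
        J * (((m - σ) / (J : ℤ) : ℤ) : ℝ) := by
      have := Int.emod_add_mul_ediv (m - σ) (J : ℤ)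
      exact_mod_cast this.symm
    have h3 : J * x < m + 1 := Int.lt_floor_add_one _
    have h4 : -((((m - σ) % (J : ℤ) : ℤ) : ℝ) + 1) / J + x ≤
        (((m - σ) / (J : ℤ) : ℤ) : ℝ) + σ / J := by
      rw [show -((((m - σ) % (J : ℤ) : ℤ) : ℝ) + 1) / J + x =
        (J * x - 1 - (((m - σ) % (J : ℤ) : ℤ) : ℝ)) / J by field_simp; ring,
        show (((m - σ) / (J : ℤ) : ℤ) : ℝ) + σ / J =
        (J * (((m - σ) / (J : ℤ) : ℤ) : ℝ) + σ) / J by field_simp]
      gcongr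
      linarith
    linarith
  refine le_trans ?_ (sum_le_sum fun σ _ => key σ)
  rw [← sum_mul]
  refine mul_le_mul_of_nonneg_right ?_ hw.le
  rw [← geo J hJ]
  refine le_of_eq ?_
  -- the map `σ ↦ (m - σ) mod J` permutes `range J`
  have hJz : (0 : ℤ) < J := by exact_mod_cast hJ
  have hback : ∀ b : ℕ, b < J →
      ((m - ((((m - b) % (J : ℤ)).toNat : ℕ) : ℤ)) % (J : ℤ)).toNat = b := by
    intro b hb
    have h1 : ((((m - b) % (J : ℤ)).toNat : ℕ) : ℤ) = (m - b) % (J : ℤ) :=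
      Int.toNat_of_nonneg (Int.emod_nonneg (m - b) hJz.ne')
    rw [h1]
    have h2 : (m - (m - b) % (J : ℤ)) % (J : ℤ) = (b : ℤ) % J := by
      rw [Int.sub_emod, Int.emod_emod_of_dvd _ dvd_rfl, ← Int.sub_emod]
      congr 1
      ring
    rw [h2, Int.emod_eq_of_lt (by positivity) (by exact_mod_cast hb)]
    simp
  refine sum_bij (fun j _ => ((m - j) % (J : ℤ)).toNat) ?_ ?_ ?_ ?_
  · intro j _
    have h0 := Int.emod_nonneg (m - j) hJz.ne'
    have h1 := Int.emod_lt_of_pos (m - j) hJz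
    rw [mem_range]
    omega
  · intro a ha b hb hab
    have h0 := Int.emod_nonneg (m - a) hJz.ne'
    have h0' := Int.emod_nonneg (m - b) hJz.ne'
    have h2 : (m - a) % (J : ℤ) = (m - b) % (J : ℤ) := by omega
    have h3 : (J : ℤ) ∣ (m - a) - (m - b) := Int.ModEq.dvd (Int.ModEq.symm h2)
    rw [mem_range] at ha hb
    obtain ⟨c, hc⟩ := h3
    have h4 : (b : ℤ) - a = J * c := by linarith
    have h5 : |(b : ℤ) - a| < J := by
      rw [abs_lt]
      constructor <;> omega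
    have h6 : (b : ℤ) - a = 0 := Int.eq_zero_of_abs_lt_dvd ⟨c, h4⟩ h5
    omega
  · intro b hb
    rw [mem_range] at hb
    refine ⟨((m - b) % (J : ℤ)).toNat, ?_, hback b hb⟩
    have h0 := Int.emod_nonneg (m - b) hJz.ne'
    have h1 := Int.emod_lt_of_pos (m - b) hJz
    rw [mem_range]
    omega
  · intro j hj
    rw [hback j (mem_range.1 hj)]

end Pool.Agent.Helper35.KM
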