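import Mathlib
import Pool.Agent.Helper35.KM.Shift

/-!
# The average of the value function over the shifts
-/

set_option autoImplicit false

namespace Pool.Agent.Helper35.KM

open Finset

/-- `2 ^ (-t)` -/
noncomputable def ee (t : ℝ) : ℝ := Real.exp (-(Real.log 2 * t))

/-- the value function for weight one and class bottom `2 ^ (-t)` -/
noncomputable def phi (k : ℝ) (t : ℝ) : ℝ := min (ee t) (k / 2 - (k - 1) / 2 * ee t)

theorem ee_cont : Continuous ee := by
  unfold ee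
  fun_prop

theorem phi_cont (k : ℝ) : Continuous (phi k) := by
  unfold phi
  exact ee_cont.min (continuous_const.sub (continuous_const.mul ee_cont))

theorem ee_pos (t : ℝ) : 0 < ee t := Real.exp_pos _

theorem ee_anti {s t : ℝ} (h : s ≤ t) : ee t ≤ ee s := by
  unfold ee
  have hl : 0 < Real.log 2 := Real.log_pos (by norm_num)
  exact Real.exp_le_exp.2 (neg_le_neg (mul_le_mul_of_nonneg_left h hl.le))

/-- Lipschitz -/
theorem ee_lip {s t : ℝ} (h0 : 0 ≤ s) (h : s ≤ t) : ee s ≤ ee t + (t - s) := by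
  have hl : 0 < Real.log 2 := Real.log_pos (by norm_num)
  have hl1 : Real.log 2 ≤ 1 := by linarith [Real.log_two_lt_d9]
  have h1 : ee t = ee s * Real.exp (-(Real.log 2 * (t - s))) := by
    unfold ee
    rw [← Real.exp_add]
    congr 1
    ring
  have h2 : 1 - Real.log 2 * (t - s) ≤ Real.exp (-(Real.log 2 * (t - s))) := by
    have := Real.add_one_le_exp (-(Real.log 2 * (t - s)))
    linarith
  have h3 : ee s ≤ 1 := by
    have := ee_anti h0
    have h4 : ee 0 = 1 := by simp [ee]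
    linarith
  have h5 : 0 ≤ t - s := by linarith
  rw [h1]
  have h6 : ee s * (1 - Real.log 2 * (t - s)) ≤ ee s * Real.exp (-(Real.log 2 * (t - s))) :=
    mul_le_mul_of_nonneg_left h2 (ee_pos s).le
  have h7 : ee s * (Real.log 2 * (t - s)) ≤ 1 * (1 * (t - s)) := by
    refine mul_le_mul h3 (mul_le_mul_of_nonneg_right hl1 h5) (by positivity) (by norm_num)
  nlinarith

theorem phi_lip {k : ℝ} (hk : 1 ≤ k) {s t d : ℝ} (hs : 0 ≤ s) (ht : 0 ≤ t) (hd : |s - t| ≤ d) :
    phi k t - k * d ≤ phi k s := by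
  have hd' := abs_le.1 hd
  have hd0 : 0 ≤ d := (abs_nonneg _).trans hd
  have h1 : ee t - d ≤ ee s := by
    rcases le_total s t with h | h
    · linarith [ee_anti h]
    · have := ee_lip ht h
      linarith
  have h2 : ee s ≤ ee t + d := by
    rcases le_total s t with h | h
    · have := ee_lip hs h
      linarith
    · linarith [ee_anti h]
  unfold phi
  refine le_min ?_ ?_
  · have := min_le_left (ee t) (k / 2 - (k - 1) / 2 * ee t)
    nlinarith
  · have := min_le_right (ee t) (k / 2 - (k - 1) / 2 * ee t)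
    have h3 : (k - 1) / 2 * ee s ≤ (k - 1) / 2 * (ee t + d) :=
      mul_le_mul_of_nonneg_left h2 (by linarith)
    nlinarith

theorem int_ee (a b : ℝ) : ∫ t in a..b, ee t = (ee a - ee b) / Real.log 2 := by
  have hl : 0 < Real.log 2 := Real.log_pos (by norm_num)
  have hd : ∀ t ∈ Set.uIcc a b, HasDerivAt (fun t => -(ee t) / Real.log 2) (ee t) t := by
    intro t _
    have h1 : HasDerivAt (fun t : ℝ => -(Real.log 2 * t)) (-(Real.log 2 * 1)) t :=
      ((hasDerivAt_id t).const_mul (Real.log 2)).neg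
    have h2 := h1.exp
    have h3 := (h2.neg).div_const (Real.log 2)
    unfold ee
    refine h3.congr_deriv ?_
    field_simp
  rw [intervalIntegral.integral_eq_sub_of_hasDerivAt hd (ee_cont.intervalIntegrable a b)]
  ring

/-- the integral of the value function -/
theorem int_phi {k : ℝ} (hk : 1 ≤ k) :
    ∫ t in (0 : ℝ)..1, phi k t = k / 2 * Real.logb 2 (1 + 1 / k) := by
  have hl : 0 < Real.log 2 := Real.log_pos (by norm_num)
  have hk0 : 0 < k := by linarith
  obtain ⟨u, hu⟩ : ∃ u, u = Real.logb 2 (1 + 1 / k) := ⟨_, rfl⟩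
  have h1k : 0 < 1 + 1 / k := by positivity
  have hu1 : u ≤ 1 := by
    rw [hu, Real.logb_le_iff_le_rpow (by norm_num) h1k, Real.rpow_one]
    have : 1 / k ≤ 1 := by rw [div_le_one hk0]; exact hk
    linarith
  have hu0 : 0 ≤ u := by
    rw [hu]
    refine Real.logb_nonneg (by norm_num) ?_
    have : 0 ≤ 1 / k := by positivity
    linarith
  have heu : ee u = k / (k + 1) := by
    unfold ee
    rw [hu, Real.logb, mul_div_cancel₀ _ hl.ne', Real.exp_neg, Real.exp_log h1k]
    field_simp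
  have he0 : ee 0 = 1 := by simp [ee]
  have he1 : ee 1 = 1 / 2 := by
    unfold ee
    rw [mul_one, Real.exp_neg, Real.exp_log (by norm_num)]
    norm_num
  have hA : ∫ t in (0 : ℝ)..u, phi k t = ∫ t in (0 : ℝ)..u, (k / 2 - (k - 1) / 2 * ee t) := by
    refine intervalIntegral.integral_congr fun t ht => ?_
    rw [Set.uIcc_of_le hu0] at ht
    unfold phi
    refine min_eq_right ?_
    have h2 : k / (k + 1) ≤ ee t := by
      rw [← heu]
      exact ee_anti ht.2
    have h3 : k ≤ ee t * (k + 1) := by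
      rwa [div_le_iff₀ (by linarith)] at h2
    nlinarith
  have hB : ∫ t in u..(1 : ℝ), phi k t = ∫ t in u..(1 : ℝ), ee t := by
    refine intervalIntegral.integral_congr fun t ht => ?_
    rw [Set.uIcc_of_le hu1] at ht
    unfold phi
    refine min_eq_left ?_
    have h2 : ee t ≤ k / (k + 1) := by
      rw [← heu]
      exact ee_anti ht.1
    have h3 : ee t * (k + 1) ≤ k := by
      rwa [le_div_iff₀ (by linarith)] at h2
    nlinarith
  rw [← intervalIntegral.integral_add_adjacent_intervals ((phi_cont k).intervalIntegrable 0 u)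
    ((phi_cont k).intervalIntegrable u 1), hA, hB, int_ee,
    intervalIntegral.integral_sub (by simp) ((ee_cont.intervalIntegrable 0 u).const_mul _),
    intervalIntegral.integral_const_mul, int_ee, intervalIntegral.integral_const, he0, he1, heu,
    ← hu]
  simp only [smul_eq_mul]
  field_simp
  ring

/-- the index of the shift `σ` for the integer `m` -/
def idx (J : ℕ) (m : ℤ) (σ : ℕ) : ℕ := ((m - σ) % (J : ℤ)).toNat

theorem idx_lt {J : ℕ} (hJ : 0 < J) (m : ℤ) (σ : ℕ) : idx J m σ < J := by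
  have hJz : (0 : ℤ) < J := by exact_mod_cast hJ
  have h0 := Int.emod_nonneg (m - σ) hJz.ne'
  have h1 := Int.emod_lt_of_pos (m - σ) hJz
  unfold idx
  omega

theorem idx_idx {J : ℕ} (hJ : 0 < J) (m : ℤ) {b : ℕ} (hb : b < J) : idx J m (idx J m b) = b := by
  have hJz : (0 : ℤ) < J := by exact_mod_cast hJ
  unfold idx
  have h1 : ((((m - b) % (J : ℤ)).toNat : ℕ) : ℤ) = (m - b) % (J : ℤ) :=
    Int.toNat_of_nonneg (Int.emod_nonneg (m - b) hJz.ne')
  rw [h1]
  have h2 : (m - (m - b) % (J : ℤ)) % (J : ℤ) = (b : ℤ) % J := by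
    rw [Int.sub_emod, Int.emod_emod_of_dvd _ dvd_rfl, ← Int.sub_emod]
    congr 1
    ring
  rw [h2, Int.emod_eq_of_lt (by positivity) (by exact_mod_cast hb)]
  simp

theorem sum_idx {J : ℕ} (hJ : 0 < J) (m : ℤ) (f : ℕ → ℝ) :
    ∑ σ ∈ range J, f (idx J m σ) = ∑ j ∈ range J, f j :=
  sum_nbij' (idx J m) (idx J m) (fun _ _ => mem_range.2 (idx_lt hJ m _))
    (fun _ _ => mem_range.2 (idx_lt hJ m _)) (fun _ h => idx_idx hJ m (mem_range.1 h))
    (fun _ h => idx_idx hJ m (mem_range.1 h)) (fun _ _ => rfl)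

/-- the class bottom for the shift `σ` is `w * 2 ^ (-θ)` with `θ` in the interval of its index -/
theorem bot_eq {J : ℕ} (hJ : 0 < J) {w : ℝ} (hw : 0 < w) (σ : ℕ) : ∃ θ : ℝ,
    bot J σ w = w * ee θ ∧ (idx J ⌊(J : ℝ) * Real.logb 2 w⌋ σ : ℝ) / J ≤ θ ∧
      θ ≤ ((idx J ⌊(J : ℝ) * Real.logb 2 w⌋ σ : ℝ) + 1) / J := by
  have hJ0 : (0 : ℝ) < J := Nat.cast_pos.2 hJ
  have hJz : (0 : ℤ) < J := by exact_mod_cast hJ
  obtain ⟨x, hx⟩ : ∃ x : ℝ, x = Real.logb 2 w := ⟨_, rfl⟩
  obtain ⟨m, hm⟩ : ∃ m : ℤ, m = ⌊(J : ℝ) * x⌋ := ⟨_, rfl⟩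
  rw [← hx, ← hm]
  have hwx : w = (2 : ℝ) ^ x := by
    rw [hx]
    exact (Real.rpow_logb (by norm_num) (by norm_num) hw).symm
  have hmod0 : 0 ≤ (m - σ) % (J : ℤ) := Int.emod_nonneg _ hJz.ne'
  have hcast : (idx J m σ : ℝ) = (((m - σ) % (J : ℤ) : ℤ) : ℝ) := by
    have := Int.toNat_of_nonneg hmod0
    unfold idx
    exact_mod_cast this
  have h2 : (m : ℝ) ≤ J * x := by rw [hm]; exact Int.floor_le _
  have h3 : J * x < m + 1 := by rw [hm]; exact Int.lt_floor_add_one _
  have hsplit : (m : ℝ) - σ = (((m - σ) % (J : ℤ) : ℤ) : ℝ) +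
      J * (((m - σ) / (J : ℤ) : ℤ) : ℝ) := by
    have := Int.emod_add_mul_ediv (m - σ) (J : ℤ)
    exact_mod_cast this.symm
  have hmodlt : (((m - σ) % (J : ℤ) : ℤ) : ℝ) + 1 ≤ J := by
    have := Int.emod_lt_of_pos (m - σ) hJz
    exact_mod_cast this
  have hmodR : (0 : ℝ) ≤ (((m - σ) % (J : ℤ) : ℤ) : ℝ) := by exact_mod_cast hmod0
  have hfl : ⌊x - σ / J⌋ = (m - σ) / (J : ℤ) := by
    rw [Int.floor_eq_iff]
    constructor
    · rw [show x - σ / J = (J * x - σ) / J by field_simp, le_div_iff₀ hJ0]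
      linarith
    · rw [show x - σ / J = (J * x - σ) / J by field_simp, div_lt_iff₀ hJ0]
      linarith
  refine ⟨x - ((((m - σ) / (J : ℤ) : ℤ) : ℝ) + σ / J), ?_, ?_, ?_⟩
  · unfold bot cls
    rw [← hx, hfl, hwx]
    have : ee (x - ((((m - σ) / (J : ℤ) : ℤ) : ℝ) + σ / J)) =
        (2 : ℝ) ^ (-(x - ((((m - σ) / (J : ℤ) : ℤ) : ℝ) + σ / J))) := by
      unfold ee
      rw [Real.rpow_def_of_pos (by norm_num)]
      congr 1
      ring
    rw [this, ← Real.rpow_add (by norm_num)]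
    congr 1
    ring
  · rw [hcast, show x - ((((m - σ) / (J : ℤ) : ℤ) : ℝ) + σ / J) =
      (J * x - σ - J * (((m - σ) / (J : ℤ) : ℤ) : ℝ)) / J by field_simp; ring]
    gcongr
    linarith
  · rw [hcast, show x - ((((m - σ) / (J : ℤ) : ℤ) : ℝ) + σ / J) =
      (J * x - σ - J * (((m - σ) / (J : ℤ) : ℤ) : ℝ)) / J by field_simp; ring]
    gcongr
    linarith

/-- the average of the value function over `J` shifts -/
theorem avg_phi {k : ℝ} (hk : 1 ≤ k) {J : ℕ} (hJ : 0 < J) {w : ℝ} (hw : 0 < w) :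
    (J * (k / 2 * Real.logb 2 (1 + 1 / k)) - k) * w ≤
      ∑ σ ∈ range J, min (bot J σ w) (k / 2 * w - (k - 1) / 2 * bot J σ w) := by
  have hJ0 : (0 : ℝ) < J := Nat.cast_pos.2 hJ
  obtain ⟨m, hm⟩ : ∃ m : ℤ, m = ⌊(J : ℝ) * Real.logb 2 w⌋ := ⟨_, rfl⟩
  obtain ⟨f, hf⟩ : ∃ f : ℕ → ℝ, f = fun j : ℕ =>
      (J * ∫ t in ((j : ℝ) / J)..(((j + 1 : ℕ) : ℝ) / J), phi k t) - k / J := ⟨_, rfl⟩
  have key : ∀ σ ∈ range J, f (idx J m σ) * w ≤
      min (bot J σ w) (k / 2 * w - (k - 1) / 2 * bot J σ w) := by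
    intro σ _
    obtain ⟨θ, h1, h2, h3⟩ := bot_eq hJ hw σ
    rw [← hm] at h2 h3
    obtain ⟨j, hj⟩ : ∃ j : ℕ, j = idx J m σ := ⟨_, rfl⟩
    rw [← hj] at h2 h3
    have hmin : min (bot J σ w) (k / 2 * w - (k - 1) / 2 * bot J σ w) = phi k θ * w := by
      unfold phi
      rw [h1, min_mul_of_nonneg _ _ hw.le]
      congr 1 <;> ring
    rw [hmin, ← hj]
    refine mul_le_mul_of_nonneg_right ?_ hw.le
    have hj0 : (0 : ℝ) ≤ (j : ℝ) / J := by positivity
    have hlen : (((j + 1 : ℕ) : ℝ) / J) - (j : ℝ) / J = 1 / J := by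
      push_cast
      field_simp
      ring
    have hle : (j : ℝ) / J ≤ ((j + 1 : ℕ) : ℝ) / J := by
      push_cast
      gcongr
      linarith
    have hint : ∫ t in ((j : ℝ) / J)..(((j + 1 : ℕ) : ℝ) / J), phi k t ≤
        ∫ _t in ((j : ℝ) / J)..(((j + 1 : ℕ) : ℝ) / J), (phi k θ + k * (1 / J)) := by
      refine intervalIntegral.integral_mono_on hle ((phi_cont k).intervalIntegrable _ _)
        (by simp) ?_
      intro t ht
      have h4 := phi_lip hk (s := θ) (t := t) (d := 1 / J) (hj0.trans h2) (hj0.trans ht.1) (by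
        have h5 : ((j : ℝ) + 1) / J = (j : ℝ) / J + 1 / J := by ring
        have h6 := ht.2
        push_cast at h6
        rw [abs_le]
        constructor <;> linarith [ht.1])
      linarith
    rw [intervalIntegral.integral_const, hlen, smul_eq_mul] at hint
    rw [hf]
    have h7 : J * ∫ t in ((j : ℝ) / J)..(((j + 1 : ℕ) : ℝ) / J), phi k t ≤
        J * (1 / J * (phi k θ + k * (1 / J))) := mul_le_mul_of_nonneg_left hint hJ0.le
    have h8 : J * (1 / J * (phi k θ + k * (1 / J))) = phi k θ + k / J := by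
      field_simp
    rw [h8] at h7
    linarith
  refine le_trans (le_of_eq ?_) (sum_le_sum key)
  rw [← sum_mul, sum_idx hJ m f, hf]
  congr 1
  rw [sum_sub_distrib, ← mul_sum,
    intervalIntegral.sum_integral_adjacent_intervals (a := fun j : ℕ => (j : ℝ) / J)
      (fun j _ => (phi_cont k).intervalIntegrable _ _)]
  rw [show ((0 : ℕ) : ℝ) / J = 0 by simp, div_self hJ0.ne', int_phi hk, sum_const, card_range,
    nsmul_eq_mul]
  congr 1
  field_simp

/-- the average of the value function over many shifts -/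
theorem avg_lam {k : ℝ} (hk : 1 ≤ k) {lam : ℝ} (hl : lam < Real.logb 2 (1 + 1 / k)) :
    ∃ J : ℕ, 0 < J ∧ ∀ w : ℝ, 0 < w → J * (k / 2 * lam) * w ≤
      ∑ σ ∈ range J, min (bot J σ w) (k / 2 * w - (k - 1) / 2 * bot J σ w) := by
  have hd : 0 < Real.logb 2 (1 + 1 / k) - lam := by linarith
  obtain ⟨J, hJ⟩ := exists_nat_ge (2 / (Real.logb 2 (1 + 1 / k) - lam))
  have hJ0 : 0 < J := by
    have : (0 : ℝ) < J := lt_of_lt_of_le (by positivity) hJ
    exact_mod_cast this
  refine ⟨J, hJ0, fun w hw => le_trans ?_ (avg_phi hk hJ0 hw)⟩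
  refine mul_le_mul_of_nonneg_right ?_ hw.le
  rw [div_le_iff₀ hd] at hJ
  nlinarith

end Pool.Agent.Helper35.KM
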