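import Mathlib
import Pool.Agent.Helper35.KM.Shift

/-!
# The constant of the shifted classes and the numerics for `k ≥ 9`
-/

set_option autoImplicit false

namespace Pool.Agent.Helper35.KM

theorem kap_pos {J : ℕ} (hJ : 0 < J) : 0 < kap J := by
  unfold kap
  have hJ0 : (0 : ℝ) < J := Nat.cast_pos.2 hJ
  have h1 : (1 : ℝ) < 2 ^ (1 / J : ℝ) := Real.one_lt_rpow (by norm_num) (by positivity)
  have h2 : (0 : ℝ) < 2 ^ (1 / J : ℝ) - 1 := by linarith
  positivity

/-- `kap J` is at least `1 / (2 log 2 (1 + 1 / J))` -/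
theorem kap_ge {J : ℕ} (hJ : 0 < J) : 1 / (2 * Real.log 2 * (1 + 1 / J)) ≤ kap J := by
  unfold kap
  have hJ0 : (0 : ℝ) < J := Nat.cast_pos.2 hJ
  have hJ1 : (1 : ℝ) ≤ J := by exact_mod_cast hJ
  have hl : 0 < Real.log 2 := Real.log_pos (by norm_num)
  have hl1 : Real.log 2 ≤ 1 := by linarith [Real.log_two_lt_d9]
  have h1 : (1 : ℝ) < 2 ^ (1 / J : ℝ) := Real.one_lt_rpow (by norm_num) (by positivity)
  have h2 : (0 : ℝ) < 2 ^ (1 / J : ℝ) - 1 := by linarith
  obtain ⟨t, ht⟩ : ∃ t : ℝ, t = Real.log 2 / J := ⟨_, rfl⟩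
  have ht0 : 0 < t := by rw [ht]; positivity
  have ht1 : t ≤ 1 := by
    rw [ht, div_le_one hJ0]
    linarith
  have he : (2 : ℝ) ^ (1 / J : ℝ) = Real.exp t := by
    rw [Real.rpow_def_of_pos (by norm_num), ht]
    congr 1
    ring
  have hexp : Real.exp t ≤ 1 + t + t ^ 2 := by
    have := Real.abs_exp_sub_one_sub_id_le (x := t) (by rw [abs_of_pos ht0]; exact ht1)
    linarith [(abs_le.1 this).2]
  have h3 : J * ((2 : ℝ) ^ (1 / J : ℝ) - 1) ≤ Real.log 2 * (1 + 1 / J) := by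
    rw [he]
    have hJt : J * t = Real.log 2 := by
      rw [ht]
      field_simp
    have h5 : J * (Real.exp t - 1) ≤ J * (t + t ^ 2) :=
      mul_le_mul_of_nonneg_left (by linarith) hJ0.le
    have h6 : t ≤ 1 / J := by
      rw [ht]
      exact div_le_div_of_nonneg_right hl1 hJ0.le
    have h7 : J * (t + t ^ 2) = Real.log 2 * (1 + t) := by
      have : J * (t + t ^ 2) = (J * t) * (1 + t) := by ring
      rw [this, hJt]
    rw [h7] at h5
    exact h5.trans (mul_le_mul_of_nonneg_left (by linarith) hl.le)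
  refine one_div_le_one_div_of_le (by positivity) ?_
  nlinarith

/-- numerics for `k ≥ 9` -/
theorem num {k : ℝ} (hk : 9 ≤ k) :
    1 + (k + 1) * (Real.log 2 * (1 + 1 / 200)) ≤ k - 1 := by
  have h := Real.log_two_lt_d9
  nlinarith

/-- the final ratio for `k ≥ 9` -/
theorem ratio {k : ℝ} (hk : 9 ≤ k) :
    1 / (k - 1) ≤ 1 / (1 + (k + 1) * (Real.log 2 * (1 + 1 / 200))) := by
  have hl : 0 < Real.log 2 := Real.log_pos (by norm_num)
  exact one_div_le_one_div_of_le (by nlinarith) (num hk)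

end Pool.Agent.Helper35.KM
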